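import Pool.Agent.Helper8.KB.OneDim

set_option autoImplicit false
set_option maxHeartbeats 1000000

namespace Pool.Agent.Helper8.KB

open Real Set MeasureTheory Filter Topology

/-- the average over `u` -/
noncomputable def avg (f : ℝ × ℝ → ℝ) (v : ℝ) : ℝ := (2 * π)⁻¹ * ∫ u in (0 : ℝ)..(2 * π), f (u, v)

lemma two_pi_avg (f : ℝ × ℝ → ℝ) (v : ℝ) :
    ∫ u in (0 : ℝ)..(2 * π), f (u, v) = 2 * π * avg f v := by
  unfold avg
  rw [mul_inv_cancel_left₀ (by positivity)]

lemma avg_differentiable {f : ℝ × ℝ → ℝ} (hf : ContDiff ℝ 1 f) : Differentiable ℝ (avg f) := by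
  intro v₀
  have hfc : Continuous f := hf.continuous
  have hfd : ∀ q, HasFDerivAt f (fderiv ℝ f q) q := fun q =>
    (hf.differentiable one_ne_zero q).hasFDerivAt
  have hdc : Continuous (fun q : ℝ × ℝ => fderiv ℝ f q (0, 1)) :=
    (hf.continuous_fderiv one_ne_zero).clm_apply continuous_const
  have hd : ∀ u v : ℝ, HasDerivAt (fun v => f (u, v)) (fderiv ℝ f (u, v) (0, 1)) v := by
    intro u v
    have h1 : HasDerivAt (fun v : ℝ => (u, v)) (0, 1) v :=
      (hasDerivAt_const v u).prodMk (hasDerivAt_id v)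
    exact (hfd (u, v)).comp_hasDerivAt v h1
  obtain ⟨C, hC⟩ := (isCompact_Icc.prod isCompact_Icc :
    IsCompact ((Icc (0 : ℝ) (2 * π)) ×ˢ (Icc (v₀ - 1) (v₀ + 1)))).exists_bound_of_continuousOn
      hdc.continuousOn
  have h := intervalIntegral.hasDerivAt_integral_of_dominated_loc_of_deriv_le (μ := volume)
    (a := 0) (b := 2 * π) (F := fun v u => f (u, v)) (F' := fun v u => fderiv ℝ f (u, v) (0, 1))
    (x₀ := v₀) (s := Icc (v₀ - 1) (v₀ + 1)) (bound := fun _ => C)
    (Icc_mem_nhds (by linarith) (by linarith))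
    (Eventually.of_forall (fun v =>
      (hfc.comp (by fun_prop : Continuous (fun u : ℝ => (u, v)))).aestronglyMeasurable))
    ((hfc.comp (by fun_prop : Continuous (fun u : ℝ => (u, v₀)))).intervalIntegrable _ _)
    ((hdc.comp (by fun_prop : Continuous (fun u : ℝ => (u, v₀)))).aestronglyMeasurable)
    (Eventually.of_forall (fun u hu v hv => hC (u, v) ⟨by
      rw [uIoc_of_le (by positivity)] at hu
      exact ⟨hu.1.le, hu.2⟩, hv⟩))
    intervalIntegrable_const
    (Eventually.of_forall (fun u _ v _ => hd u v))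
  exact (h.2.const_mul ((2 * π)⁻¹)).differentiableAt

/-- the normalized statement: `B = π`, systole at least `π` -/
theorem bavard_normalized {ℓ : ℝ} (hℓ : 0 < ℓ) {f : ℝ × ℝ → ℝ}
    (hf : ContDiff ℝ 1 f)
    (hfB : ∀ u v, f (u + π, -v) = f (u, v)) (hfℓ : ∀ u v, f (u, v + ℓ) = f (u, v))
    (hsys : ∀ c : ℝ → ℝ × ℝ, ContDiff ℝ 1 c → ∀ m n : ℤ, (m, n) ≠ (0, 0) →
      c 1 = ((c 0).1 + m * π, (-1 : ℝ) ^ m * (c 0).2 + n * ℓ) →
      π ≤ ∫ t in (0 : ℝ)..1, f (c t) * √((deriv c t).1 ^ 2 + (deriv c t).2 ^ 2)) :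
    2 * √2 * π < ∫ u in (0 : ℝ)..π, ∫ v in (0 : ℝ)..ℓ, f (u, v) ^ 2 := by
  have hfc : Continuous f := hf.continuous
  have hπ := pi_pos
  -- symmetries
  have hper2 : ∀ u v, f (u + 2 * π, v) = f (u, v) := by
    intro u v
    have h1 := hfB (u + π) (-v)
    have h2 := hfB u v
    rw [neg_neg] at h1
    rw [show u + 2 * π = u + π + π by ring, h1, h2]
  have hrefl : ∀ u v, f (u, -v) = f (u + π, v) := by
    intro u v
    have := hfB u (-v)
    rw [neg_neg] at this
    exact this.symm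
  have hperv : ∀ v, Function.Periodic (fun u => f (u, v)) (2 * π) := fun v u => hper2 u v
  have hshift : ∀ (v a : ℝ), ∫ u in (0 : ℝ)..(2 * π), f (a + u, v) = 2 * π * avg f v := by
    intro v a
    rw [← two_pi_avg, intervalIntegral.integral_comp_add_left (fun u => f (u, v)) a, add_zero]
    have := (hperv v).intervalIntegral_add_eq a 0
    rw [zero_add] at this
    exact this
  have hFd : Differentiable ℝ (avg f) := avg_differentiable hf
  have hFc : Continuous (avg f) := hFd.continuous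
  have heven : ∀ v, avg f (-v) = avg f v := by
    intro v
    have h1 := hshift v π
    have h2 := two_pi_avg f (-v)
    have h3 : ∫ u in (0 : ℝ)..(2 * π), f (u, -v) = ∫ u in (0 : ℝ)..(2 * π), f (π + u, v) := by
      congr 1
      ext u
      rw [hrefl, add_comm]
    rw [h3, h1] at h2
    have : (2 * π) ≠ 0 := by positivity
    exact (mul_left_cancel₀ this h2).symm
  have hper : ∀ v, avg f (v + ℓ) = avg f v := by
    intro v
    unfold avg
    simp_rw [hfℓ]
  -- averaging over translations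
  have havg : ∀ c₁ c₂ : ℝ → ℝ, ContDiff ℝ 1 c₁ → ContDiff ℝ 1 c₂ → ∀ m n : ℤ, (m, n) ≠ (0, 0) →
      c₁ 1 = c₁ 0 + m * π → c₂ 1 = (-1 : ℝ) ^ m * c₂ 0 + n * ℓ →
      π ≤ ∫ t in (0 : ℝ)..1, avg f (c₂ t) * √((deriv c₁ t) ^ 2 + (deriv c₂ t) ^ 2) := by
    intro c₁ c₂ hc₁ hc₂ m n hmn he1 he2
    set L : ℝ → ℝ := fun t => √((deriv c₁ t) ^ 2 + (deriv c₂ t) ^ 2) with hL
    have hLc : Continuous L := by
      have h1 : Continuous (deriv c₁) := hc₁.continuous_deriv le_rfl
      have h2 : Continuous (deriv c₂) := hc₂.continuous_deriv le_rfl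
      exact ((h1.pow 2).add (h2.pow 2)).sqrt
    have h1 : ∀ a : ℝ, π ≤ ∫ t in (0 : ℝ)..1, f (c₁ t + a, c₂ t) * L t := by
      intro a
      have hc : ContDiff ℝ 1 (fun t => (c₁ t + a, c₂ t)) := (hc₁.add contDiff_const).prodMk hc₂
      have h := hsys (fun t => (c₁ t + a, c₂ t)) hc m n hmn (by
        rw [Prod.ext_iff]
        constructor
        · simp only
          rw [he1]; ring
        · exact he2)
      have hd : ∀ t, deriv (fun t => (c₁ t + a, c₂ t)) t = (deriv c₁ t, deriv c₂ t) := by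
        intro t
        have d1 := ((hc₁.differentiable one_ne_zero t).hasDerivAt).add_const a
        have d2 := (hc₂.differentiable one_ne_zero t).hasDerivAt
        exact (d1.prodMk d2).deriv
      simp_rw [hd] at h
      exact h
    have hjc : Continuous (fun p : ℝ × ℝ => f (c₁ p.2 + p.1, c₂ p.2) * L p.2) := by
      have hc1 := hc₁.continuous
      have hc2 := hc₂.continuous
      exact (hfc.comp (by fun_prop)).mul (hLc.comp continuous_snd)
    have h2 : ∫ _ in (0 : ℝ)..(2 * π), π ≤ ∫ a in (0 : ℝ)..(2 * π),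
        ∫ t in (0 : ℝ)..1, f (c₁ t + a, c₂ t) * L t := by
      apply intervalIntegral.integral_mono_on (by positivity)
      · exact intervalIntegrable_const
      · apply Continuous.intervalIntegrable
        exact intervalIntegral.continuous_parametric_intervalIntegral_of_continuous'
          (f := fun a t => f (c₁ t + a, c₂ t) * L t) hjc 0 1
      · intro a _
        exact h1 a
    rw [intervalIntegral.integral_const, sub_zero, smul_eq_mul,
      intervalIntegral_intervalIntegral_swap] at h2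
    · have h3 : ∀ t : ℝ, ∫ a in (0 : ℝ)..(2 * π), f (c₁ t + a, c₂ t) * L t
          = (2 * π) * (avg f (c₂ t) * L t) := by
        intro t
        rw [intervalIntegral.integral_mul_const, hshift]
        ring
      simp_rw [h3] at h2
      rw [intervalIntegral.integral_const_mul] at h2
      exact le_of_mul_le_mul_left h2 (by positivity)
    · apply IntegrableOn.mono_set _
        (Set.prod_mono uIoc_subset_uIcc uIoc_subset_uIcc)
      apply ContinuousOn.integrableOn_compact (isCompact_uIcc.prod isCompact_uIcc)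
      exact hjc.continuousOn
  -- the three consequences
  have hA : π ≤ ∫ v in (0 : ℝ)..ℓ, avg f v := by
    have h := havg (fun _ => 0) (fun t => ℓ * t) contDiff_const (by fun_prop) 0 1 (by simp)
      (by simp) (by simp)
    have hd : ∀ t : ℝ, deriv (fun t => ℓ * t) t = ℓ := by
      intro t
      simp
    have hd0 : ∀ t : ℝ, deriv (fun _ : ℝ => (0 : ℝ)) t = 0 := by
      intro t; simp
    simp_rw [hd, hd0] at h
    rw [show (0 : ℝ) ^ 2 + ℓ ^ 2 = ℓ ^ 2 by ring, sqrt_sq hℓ.le,
      intervalIntegral.integral_mul_const,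
      intervalIntegral.integral_comp_mul_left (avg f) hℓ.ne', mul_zero, mul_one, smul_eq_mul] at h
    rw [mul_comm, mul_inv_cancel_left₀ hℓ.ne'] at h
    exact h
  have hcurve1 : CurveHyp (avg f) := by
    intro c₁ c₂ h1 h2 h3 h4 h5 h6
    exact havg c₁ c₂ h1 h2 1 0 (by simp) (by rw [h3, h4]; simp) (by rw [h5, h6]; simp)
  have hcurve2 : CurveHyp (fun v => avg f (v + ℓ / 2)) := by
    intro c₁ c₂ h1 h2 h3 h4 h5 h6
    have h := havg c₁ (fun t => c₂ t + ℓ / 2) h1 (h2.add contDiff_const) 1 1 (by simp)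
      (by rw [h3, h4]; simp) (by rw [h5, h6]; simp; ring)
    have hd : ∀ t : ℝ, deriv (fun t => c₂ t + ℓ / 2) t = deriv c₂ t := by
      intro t
      exact deriv_add_const _
    simp_rw [hd] at h
    exact h
  have hone := one_dim hℓ hFd heven hper hA
    (fun x hx => cap_ineq hFc hcurve1 hx)
    (fun x hx => cap_ineq (F := fun v => avg f (v + ℓ / 2)) (hFc.comp (by fun_prop)) hcurve2 hx)
  -- the area
  have hsq : Continuous (fun q : ℝ × ℝ => f q ^ 2) := hfc.pow 2
  have hfib : ∀ v : ℝ, 2 * π * avg f v ^ 2 ≤ ∫ u in (0 : ℝ)..(2 * π), f (u, v) ^ 2 := by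
    intro v
    have hcv : Continuous (fun u : ℝ => f (u, v)) := hfc.comp (by fun_prop)
    have h0 : 0 ≤ ∫ u in (0 : ℝ)..(2 * π), (f (u, v) - avg f v) ^ 2 :=
      intervalIntegral.integral_nonneg (by positivity) (fun u _ => sq_nonneg _)
    have e : ∫ u in (0 : ℝ)..(2 * π), (f (u, v) - avg f v) ^ 2
        = (∫ u in (0 : ℝ)..(2 * π), f (u, v) ^ 2)
          - 2 * avg f v * (∫ u in (0 : ℝ)..(2 * π), f (u, v)) + 2 * π * avg f v ^ 2 := by
      have e1 : ∫ u in (0 : ℝ)..(2 * π), avg f v ^ 2 = 2 * π * avg f v ^ 2 := by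
        rw [intervalIntegral.integral_const, sub_zero, smul_eq_mul]
      rw [← e1, ← intervalIntegral.integral_const_mul,
        ← ii_sub (f := fun u => f (u, v) ^ 2) (g := fun u => 2 * avg f v * f (u, v))
          (by fun_prop) (by fun_prop),
        ← ii_add (f := fun u => f (u, v) ^ 2 - 2 * avg f v * f (u, v)) (g := fun _ => avg f v ^ 2)
          (by fun_prop) (by fun_prop)]
      congr 1
      ext u
      ring
    rw [e, two_pi_avg] at h0
    nlinarith
  have hparam : Continuous (fun v : ℝ => ∫ u in (0 : ℝ)..(2 * π), f (u, v) ^ 2) := by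
    apply intervalIntegral.continuous_parametric_intervalIntegral_of_continuous'
    exact hsq.comp (by fun_prop : Continuous (fun p : ℝ × ℝ => (p.2, p.1)))
  have hA2 : 2 * π * ∫ v in (0 : ℝ)..ℓ, avg f v ^ 2
      ≤ ∫ v in (0 : ℝ)..ℓ, ∫ u in (0 : ℝ)..(2 * π), f (u, v) ^ 2 := by
    rw [← intervalIntegral.integral_const_mul]
    apply intervalIntegral.integral_mono_on hℓ.le
    · exact (continuous_const.mul (hFc.pow 2)).intervalIntegrable _ _
    · exact hparam.intervalIntegrable _ _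
    · intro v _
      exact hfib v
  have hswap : ∫ v in (0 : ℝ)..ℓ, ∫ u in (0 : ℝ)..(2 * π), f (u, v) ^ 2
      = ∫ u in (0 : ℝ)..(2 * π), ∫ v in (0 : ℝ)..ℓ, f (u, v) ^ 2 := by
    apply intervalIntegral_intervalIntegral_swap
    apply IntegrableOn.mono_set _
      (Set.prod_mono uIoc_subset_uIcc uIoc_subset_uIcc)
    apply ContinuousOn.integrableOn_compact (isCompact_uIcc.prod isCompact_uIcc)
    exact (hsq.comp (by fun_prop : Continuous (fun p : ℝ × ℝ => (p.2, p.1)))).continuousOn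
  have hparam2 : Continuous (fun u : ℝ => ∫ v in (0 : ℝ)..ℓ, f (u, v) ^ 2) := by
    apply intervalIntegral.continuous_parametric_intervalIntegral_of_continuous'
    exact hsq
  have hdouble : ∫ u in (0 : ℝ)..(2 * π), ∫ v in (0 : ℝ)..ℓ, f (u, v) ^ 2
      = 2 * ∫ u in (0 : ℝ)..π, ∫ v in (0 : ℝ)..ℓ, f (u, v) ^ 2 := by
    rw [← intervalIntegral.integral_add_adjacent_intervals
      (hparam2.intervalIntegrable 0 π) (hparam2.intervalIntegrable π (2 * π))]
    have h1 : ∫ u in π..(2 * π), ∫ v in (0 : ℝ)..ℓ, f (u, v) ^ 2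
        = ∫ u in (0 : ℝ)..π, ∫ v in (0 : ℝ)..ℓ, f (u, v) ^ 2 := by
      have h2 := intervalIntegral.integral_comp_add_right (a := 0) (b := π)
        (f := fun u => ∫ v in (0 : ℝ)..ℓ, f (u, v) ^ 2) (d := π)
      rw [zero_add, show π + π = 2 * π by ring] at h2
      rw [← h2]
      congr 1
      ext u
      have h3 : ∀ v, f (u + π, v) = f (u, -v) := fun v => (hrefl u v).symm
      simp_rw [h3]
      have h4 := intervalIntegral.integral_comp_sub_left (a := 0) (b := ℓ)
        (fun v => f (u, v) ^ 2) ℓ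
      rw [sub_zero, sub_self] at h4
      rw [← h4]
      congr 1
      ext v
      rw [show ℓ - v = -v + ℓ by ring, hfℓ]
    rw [h1]
    ring
  rw [hswap, hdouble] at hA2
  have h5 : 2 * π * (2 * √2) < 2 * π * ∫ v in (0 : ℝ)..ℓ, avg f v ^ 2 :=
    mul_lt_mul_of_pos_left hone (by positivity)
  linarith

/-- The planar Bavard inequality. -/
theorem planar_bavard {B ℓ s : ℝ} (hB : 0 < B) (hℓ : 0 < ℓ) (hs : 0 < s) {f : ℝ × ℝ → ℝ}
    (hf : ContDiff ℝ 1 f) (_hpos : ∀ q, 0 < f q)
    (hfB : ∀ u v, f (u + B, -v) = f (u, v)) (hfℓ : ∀ u v, f (u, v + ℓ) = f (u, v))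
    (hsys : ∀ c : ℝ → ℝ × ℝ, ContDiff ℝ 1 c → ∀ m n : ℤ, (m, n) ≠ (0, 0) →
      c 1 = ((c 0).1 + m * B, (-1 : ℝ) ^ m * (c 0).2 + n * ℓ) →
      s ≤ ∫ t in (0 : ℝ)..1, f (c t) * √((deriv c t).1 ^ 2 + (deriv c t).2 ^ 2)) :
    2 * √2 / π * s ^ 2 < ∫ q in Icc 0 B ×ˢ Icc 0 ℓ, f q ^ 2 := by
  have hπ := pi_pos
  set b := B / π with hb
  have hb0 : 0 < b := by positivity
  have hbπ : b * π = B := by rw [hb]; field_simp
  set κ := B / s with hκ
  have hκ0 : 0 < κ := by positivity
  set f' : ℝ × ℝ → ℝ := fun q => κ * f (b * q.1, b * q.2) with hf'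
  have hsm : ContDiff ℝ 1 f' := by
    have h1 : ContDiff ℝ 1 (fun q : ℝ × ℝ => (b * q.1, b * q.2)) := by fun_prop
    exact contDiff_const.mul (hf.comp h1)
  have hnorm := bavard_normalized (ℓ := ℓ / b) (by positivity) hsm
    (fun u v => by
      simp only [hf']
      rw [mul_add, hbπ, mul_neg, hfB])
    (fun u v => by
      simp only [hf']
      rw [mul_add, mul_div_cancel₀ _ hb0.ne', hfℓ])
    (fun c hc m n hmn he => by
      have hc1 : ContDiff ℝ 1 (fun t => (b * (c t).1, b * (c t).2)) := by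
        have h1 : ContDiff ℝ 1 (fun q : ℝ × ℝ => (b * q.1, b * q.2)) := by fun_prop
        exact h1.comp hc
      have h := hsys (fun t => (b * (c t).1, b * (c t).2)) hc1 m n hmn (by
        rw [he]
        rw [Prod.ext_iff]
        constructor
        · simp only
          rw [← hbπ]; ring
        · simp only
          field_simp)
      have hd : ∀ t, deriv (fun t => (b * (c t).1, b * (c t).2)) t
          = (b * (deriv c t).1, b * (deriv c t).2) := by
        intro t
        have h1 : HasDerivAt c (deriv c t) t := (hc.differentiable one_ne_zero t).hasDerivAt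
        have h2 : HasDerivAt (fun t => (c t).1) (deriv c t).1 t :=
          (ContinuousLinearMap.fst ℝ ℝ ℝ).hasFDerivAt.comp_hasDerivAt t h1
        have h3 : HasDerivAt (fun t => (c t).2) (deriv c t).2 t :=
          (ContinuousLinearMap.snd ℝ ℝ ℝ).hasFDerivAt.comp_hasDerivAt t h1
        exact ((h2.const_mul b).prodMk (h3.const_mul b)).deriv
      simp_rw [hd] at h
      have e : ∀ t, f' (c t) * √((deriv c t).1 ^ 2 + (deriv c t).2 ^ 2)
          = (π / s) * (f (b * (c t).1, b * (c t).2) *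
            √((b * (deriv c t).1) ^ 2 + (b * (deriv c t).2) ^ 2)) := by
        intro t
        have e1 : (b * (deriv c t).1) ^ 2 + (b * (deriv c t).2) ^ 2
            = b ^ 2 * ((deriv c t).1 ^ 2 + (deriv c t).2 ^ 2) := by ring
        rw [e1, sqrt_mul (sq_nonneg b), sqrt_sq hb0.le]
        simp only [hf', hκ]
        rw [← hbπ]
        field_simp
      simp_rw [e]
      rw [intervalIntegral.integral_const_mul]
      calc π = (π / s) * s := by field_simp
        _ ≤ _ := by gcongr)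
  -- the area
  have hsq : Continuous (fun q : ℝ × ℝ => f q ^ 2) := hf.continuous.pow 2
  have hI : ∫ q in Icc 0 B ×ˢ Icc 0 ℓ, f q ^ 2 = ∫ u in (0 : ℝ)..B, ∫ v in (0 : ℝ)..ℓ, f (u, v) ^ 2 := by
    rw [Measure.volume_eq_prod, setIntegral_prod]
    · rw [intervalIntegral.integral_of_le hB.le, integral_Icc_eq_integral_Ioc]
      congr 1
      ext u
      rw [intervalIntegral.integral_of_le hℓ.le, integral_Icc_eq_integral_Ioc]
    · rw [← Measure.volume_eq_prod]
      exact hsq.continuousOn.integrableOn_compact (isCompact_Icc.prod isCompact_Icc)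
  have hJ : ∫ u in (0 : ℝ)..π, ∫ v in (0 : ℝ)..(ℓ / b), f' (u, v) ^ 2
      = (π / s) ^ 2 * ∫ u in (0 : ℝ)..B, ∫ v in (0 : ℝ)..ℓ, f (u, v) ^ 2 := by
    have h1 : ∀ u : ℝ, ∫ v in (0 : ℝ)..(ℓ / b), f' (u, v) ^ 2
        = κ ^ 2 * b⁻¹ * ∫ v in (0 : ℝ)..ℓ, f (b * u, v) ^ 2 := by
      intro u
      simp only [hf']
      simp_rw [mul_pow]
      rw [intervalIntegral.integral_const_mul,
        intervalIntegral.integral_comp_mul_left (fun v => f (b * u, v) ^ 2) hb0.ne', mul_zero,
        mul_div_cancel₀ _ hb0.ne', smul_eq_mul]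
      ring
    simp_rw [h1]
    rw [intervalIntegral.integral_const_mul,
      intervalIntegral.integral_comp_mul_left (fun u => ∫ v in (0 : ℝ)..ℓ, f (u, v) ^ 2) hb0.ne',
      mul_zero, hbπ, smul_eq_mul]
    have : κ ^ 2 * b⁻¹ * (b⁻¹ * ∫ u in (0 : ℝ)..B, ∫ v in (0 : ℝ)..ℓ, f (u, v) ^ 2)
        = (κ / b) ^ 2 * ∫ u in (0 : ℝ)..B, ∫ v in (0 : ℝ)..ℓ, f (u, v) ^ 2 := by
      field_simp
    rw [this]
    congr 2
    rw [hκ, hb]
    field_simp
  rw [hJ] at hnorm
  rw [hI]
  set A := ∫ u in (0 : ℝ)..B, ∫ v in (0 : ℝ)..ℓ, f (u, v) ^ 2 with hAdef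
  have e2 : A = (s / π) ^ 2 * ((π / s) ^ 2 * A) := by field_simp
  rw [e2]
  calc 2 * √2 / π * s ^ 2 = (s / π) ^ 2 * (2 * √2 * π) := by field_simp
    _ < _ := by gcongr

end Pool.Agent.Helper8.KB
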