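import Pool.Agent.Helper8.KB.Hatbox

set_option autoImplicit false
set_option maxHeartbeats 1000000

namespace Pool.Agent.Helper8.KB

open Real Set MeasureTheory

/-- inverse hyperbolic tangent -/
noncomputable def vv (x : ℝ) : ℝ := (1 / 2) * (log (1 + x) - log (1 - x))

lemma vv_tanh (x : ℝ) : vv (tanh x) = x := by
  have h0 := cosh_pos x
  have h1 : 1 + tanh x = exp x / cosh x := by
    rw [tanh_eq_sinh_div_cosh, ← sinh_add_cosh]
    field_simp
    ring
  have h2 : 1 - tanh x = exp (-x) / cosh x := by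
    rw [tanh_eq_sinh_div_cosh, ← cosh_sub_sinh]
    field_simp
  unfold vv
  rw [h1, h2, log_div (exp_pos _).ne' h0.ne', log_div (exp_pos _).ne' h0.ne', log_exp, log_exp]
  ring

lemma hasDerivAt_vv {x : ℝ} (h : |x| < 1) : HasDerivAt vv (1 / (1 - x ^ 2)) x := by
  have h1 : 0 < 1 + x := by linarith [(abs_lt.mp h).1]
  have h2 : 0 < 1 - x := by linarith [(abs_lt.mp h).2]
  have d1 : HasDerivAt (fun x : ℝ => log (1 + x)) (1 / (1 + x)) x :=
    ((hasDerivAt_id x).const_add 1).log h1.ne'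
  have d2 : HasDerivAt (fun x : ℝ => log (1 - x)) (-1 / (1 - x)) x :=
    ((hasDerivAt_id x).const_sub 1).log h2.ne'
  have d3 := (d1.sub d2).const_mul (1 / 2)
  have e : (1 / 2) * (1 / (1 + x) - -1 / (1 - x)) = 1 / (1 - x ^ 2) := by
    have : (1 - x ^ 2) = (1 + x) * (1 - x) := by ring
    rw [this]
    field_simp
    ring
  rw [← e]
  exact d3

lemma hasDerivAt_tanh (x : ℝ) : HasDerivAt tanh (1 / cosh x ^ 2) x := by
  have h := (hasDerivAt_sinh x).div (hasDerivAt_cosh x) (cosh_pos x).ne'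
  have e : (cosh x * cosh x - sinh x * sinh x) / cosh x ^ 2 = 1 / cosh x ^ 2 := by
    congr 1
    have := cosh_sq x
    nlinarith
  rw [e] at h
  have e2 : (sinh / cosh) = tanh := by
    ext y
    rw [Pi.div_apply, tanh_eq_sinh_div_cosh]
  rw [← e2]
  exact h

/-- longitude along the great circle, as a function of arclength -/
noncomputable def uu (k t : ℝ) : ℝ :=
  t + arctan ((k - 1) * sin t * cos t / (cos t ^ 2 + k * sin t ^ 2))

lemma den_pos {k : ℝ} (hk : 0 < k) (t : ℝ) : 0 < cos t ^ 2 + k * sin t ^ 2 := by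
  have h := sin_sq_add_cos_sq t
  by_cases hc : cos t = 0
  · rw [hc] at h ⊢
    have : sin t ^ 2 = 1 := by linarith
    rw [this]
    linarith
  · have : 0 < cos t ^ 2 := by positivity
    have : 0 ≤ k * sin t ^ 2 := by positivity
    linarith

lemma hasDerivAt_uu {k s : ℝ} (hk : 0 < k) (hks : k ^ 2 + s ^ 2 = 1) (t : ℝ) :
    HasDerivAt (uu k) (k / (1 - s ^ 2 * sin t ^ 2)) t := by
  have hd := den_pos hk t
  have dN : HasDerivAt (fun t => (k - 1) * sin t * cos t)
      ((k - 1) * (cos t ^ 2 - sin t ^ 2)) t := by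
    have := (((hasDerivAt_sin t).const_mul (k - 1)).mul (hasDerivAt_cos t))
    have e : (k - 1) * cos t * cos t + (k - 1) * sin t * -sin t
        = (k - 1) * (cos t ^ 2 - sin t ^ 2) := by ring
    rw [← e]
    exact this
  have dD : HasDerivAt (fun t => cos t ^ 2 + k * sin t ^ 2)
      (2 * (k - 1) * sin t * cos t) t := by
    have := ((hasDerivAt_cos t).pow 2).add (((hasDerivAt_sin t).pow 2).const_mul k)
    have e : (((2 : ℕ) : ℝ) * cos t ^ (2 - 1) * -sin t) + k * (((2 : ℕ) : ℝ) * sin t ^ (2 - 1) * cos t)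
        = 2 * (k - 1) * sin t * cos t := by
      push_cast
      simp only [pow_one]
      ring
    rw [← e]
    exact this
  have dq := dN.div dD hd.ne'
  have da := (hasDerivAt_id t).add dq.arctan
  have hsc := sin_sq_add_cos_sq t
  have hden : 0 < 1 - s ^ 2 * sin t ^ 2 := by
    have h1 : s ^ 2 < 1 := by nlinarith
    have h2 : sin t ^ 2 ≤ 1 := by nlinarith [sq_nonneg (cos t)]
    nlinarith [sq_nonneg (sin t), sq_nonneg s]
  have hD2 : (cos t ^ 2 + k * sin t ^ 2) ^ 2 + ((k - 1) * sin t * cos t) ^ 2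
      = 1 - s ^ 2 * sin t ^ 2 := by
    have e1 : s ^ 2 = 1 - k ^ 2 := by linarith
    have e2 : cos t ^ 2 = 1 - sin t ^ 2 := by linarith
    rw [mul_pow, mul_pow, e1, e2]
    ring
  have e : 1 + 1 / (1 + ((k - 1) * sin t * cos t / (cos t ^ 2 + k * sin t ^ 2)) ^ 2) *
      (((k - 1) * (cos t ^ 2 - sin t ^ 2) * (cos t ^ 2 + k * sin t ^ 2)
        - (k - 1) * sin t * cos t * (2 * (k - 1) * sin t * cos t))
        / (cos t ^ 2 + k * sin t ^ 2) ^ 2) = k / (1 - s ^ 2 * sin t ^ 2) := by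
    have e3 : 1 + ((k - 1) * sin t * cos t / (cos t ^ 2 + k * sin t ^ 2)) ^ 2
        = (1 - s ^ 2 * sin t ^ 2) / (cos t ^ 2 + k * sin t ^ 2) ^ 2 := by
      rw [← hD2]
      field_simp
    have e4 : (k - 1) * (cos t ^ 2 - sin t ^ 2) * (cos t ^ 2 + k * sin t ^ 2)
        - (k - 1) * sin t * cos t * (2 * (k - 1) * sin t * cos t)
        = (k - 1) * (cos t ^ 2 - k * sin t ^ 2) := by
      have e2 : cos t ^ 2 = 1 - sin t ^ 2 := by linarith
      have : (k - 1) * sin t * cos t * (2 * (k - 1) * sin t * cos t)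
        = 2 * (k - 1) ^ 2 * sin t ^ 2 * cos t ^ 2 := by ring
      rw [this, e2]
      ring
    rw [e3, e4]
    have hd2 : (cos t ^ 2 + k * sin t ^ 2) ^ 2 ≠ 0 := by positivity
    rw [one_div_div, div_mul_div_comm, mul_comm ((cos t ^ 2 + k * sin t ^ 2) ^ 2),
      mul_div_mul_right _ _ hd2]
    rw [eq_div_iff hden.ne', add_mul, div_mul_cancel₀ _ hden.ne']
    have e1 : s ^ 2 = 1 - k ^ 2 := by linarith
    have e2 : cos t ^ 2 = 1 - sin t ^ 2 := by linarith
    rw [e1, e2]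
    ring
  rw [← e]
  exact da

lemma uu_zero (k : ℝ) : uu k 0 = 0 := by
  unfold uu; simp

lemma uu_pi (k : ℝ) : uu k π = π := by
  unfold uu; simp

/-- latitude (in the Mercator coordinate) along the great circle -/
noncomputable def ww (s t : ℝ) : ℝ := vv (s * sin t)

lemma abs_mul_sin {s : ℝ} (h0 : 0 ≤ s) (h1 : s < 1) (t : ℝ) : |s * sin t| < 1 := by
  rw [abs_mul, abs_of_nonneg h0]
  have := abs_sin_le_one t
  nlinarith [abs_nonneg (sin t)]

lemma hasDerivAt_ww {s : ℝ} (h0 : 0 ≤ s) (h1 : s < 1) (t : ℝ) :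
    HasDerivAt (ww s) (s * cos t / (1 - s ^ 2 * sin t ^ 2)) t := by
  have h := (hasDerivAt_vv (abs_mul_sin h0 h1 t)).comp t ((hasDerivAt_sin t).const_mul s)
  have e : 1 / (1 - (s * sin t) ^ 2) * (s * cos t) = s * cos t / (1 - s ^ 2 * sin t ^ 2) := by
    rw [mul_pow]; ring
  rw [← e]
  exact h

/-- the integrand of the great circle -/
noncomputable def HH (F : ℝ → ℝ) (τ : ℝ) : ℝ := F (vv τ) / √(1 - τ ^ 2)

/-- the hypothesis on curves -/
def CurveHyp (F : ℝ → ℝ) : Prop :=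
  ∀ c₁ c₂ : ℝ → ℝ, ContDiff ℝ 1 c₁ → ContDiff ℝ 1 c₂ → c₁ 0 = 0 → c₁ 1 = π → c₂ 0 = 0 →
    c₂ 1 = 0 → π ≤ ∫ t in (0 : ℝ)..1, F (c₂ t) * √((deriv c₁ t) ^ 2 + (deriv c₂ t) ^ 2)

lemma contDiff_of_hasDeriv {f f' : ℝ → ℝ} (h : ∀ t, HasDerivAt f (f' t) t)
    (hc : Continuous f') : ContDiff ℝ 1 f := by
  rw [contDiff_one_iff_deriv]
  refine ⟨fun t => (h t).differentiableAt, ?_⟩
  have : deriv f = f' := by
    ext t
    exact (h t).deriv
  rw [this]
  exact hc

lemma great_circle {F : ℝ → ℝ} (hF : CurveHyp F) {s : ℝ} (h0 : 0 ≤ s) (h1 : s < 1) :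
    π ≤ ∫ t in (0 : ℝ)..π, HH F (s * sin t) := by
  set k := √(1 - s ^ 2) with hk
  have hs2 : 0 < 1 - s ^ 2 := by nlinarith
  have hk0 : 0 < k := sqrt_pos.mpr hs2
  have hks : k ^ 2 + s ^ 2 = 1 := by
    rw [hk, sq_sqrt hs2.le]; ring
  have hden : ∀ t : ℝ, 0 < 1 - s ^ 2 * sin t ^ 2 := by
    intro t
    have h2 : sin t ^ 2 ≤ 1 := by nlinarith [sin_sq_add_cos_sq t, sq_nonneg (cos t)]
    nlinarith [sq_nonneg (sin t), sq_nonneg s]
  have d1 : ∀ t : ℝ, HasDerivAt (fun t => uu k (π * t))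
      (k / (1 - s ^ 2 * sin (π * t) ^ 2) * π) t := by
    intro t
    have h := (hasDerivAt_uu hk0 hks (π * t)).comp t ((hasDerivAt_id t).const_mul π)
    rw [mul_one] at h
    exact h
  have d2 : ∀ t : ℝ, HasDerivAt (fun t => ww s (π * t))
      (s * cos (π * t) / (1 - s ^ 2 * sin (π * t) ^ 2) * π) t := by
    intro t
    have h := (hasDerivAt_ww h0 h1 (π * t)).comp t ((hasDerivAt_id t).const_mul π)
    rw [mul_one] at h
    exact h
  have c1 : Continuous (fun t : ℝ => k / (1 - s ^ 2 * sin (π * t) ^ 2) * π) := by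
    apply Continuous.mul _ continuous_const
    apply Continuous.div continuous_const (by fun_prop)
    intro t
    exact (hden _).ne'
  have c2 : Continuous (fun t : ℝ => s * cos (π * t) / (1 - s ^ 2 * sin (π * t) ^ 2) * π) := by
    apply Continuous.mul _ continuous_const
    apply Continuous.div (by fun_prop) (by fun_prop)
    intro t
    exact (hden _).ne'
  have h := hF (fun t => uu k (π * t)) (fun t => ww s (π * t))
    (contDiff_of_hasDeriv d1 c1) (contDiff_of_hasDeriv d2 c2)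
    (by simp [uu_zero]) (by simp [uu_pi]) (by simp [ww, vv]) (by simp [ww, vv])
  have e : ∀ t : ℝ, F (ww s (π * t)) * √((deriv (fun t => uu k (π * t)) t) ^ 2
      + (deriv (fun t => ww s (π * t)) t) ^ 2) = π * HH F (s * sin (π * t)) := by
    intro t
    rw [(d1 t).deriv, (d2 t).deriv]
    have hd := hden (π * t)
    set D := 1 - s ^ 2 * sin (π * t) ^ 2 with hD
    have e1 : (k / D * π) ^ 2 + (s * cos (π * t) / D * π) ^ 2 = π ^ 2 / D := by
      have e2 : k ^ 2 + s ^ 2 * cos (π * t) ^ 2 = D := by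
        rw [hD]
        have := sin_sq_add_cos_sq (π * t)
        have e3 : cos (π * t) ^ 2 = 1 - sin (π * t) ^ 2 := by linarith
        rw [e3]
        linarith
      have e3 : (k / D * π) ^ 2 + (s * cos (π * t) / D * π) ^ 2
          = (k ^ 2 + s ^ 2 * cos (π * t) ^ 2) * π ^ 2 / D ^ 2 := by
        field_simp
      rw [e3, e2]
      field_simp
    rw [e1, sqrt_div (by positivity), sqrt_sq pi_pos.le]
    unfold HH
    have e4 : 1 - (s * sin (π * t)) ^ 2 = D := by rw [hD, mul_pow]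
    rw [e4]
    unfold ww
    ring
  simp_rw [e] at h
  rw [intervalIntegral.integral_const_mul] at h
  have e5 : ∫ t in (0 : ℝ)..1, HH F (s * sin (π * t)) = π⁻¹ * ∫ t in (0 : ℝ)..π, HH F (s * sin t) := by
    rw [intervalIntegral.integral_comp_mul_left (fun t => HH F (s * sin t)) pi_pos.ne', mul_zero,
      mul_one, smul_eq_mul]
  rw [e5, mul_inv_cancel_left₀ pi_pos.ne'] at h
  exact h

lemma HH_cont {F : ℝ → ℝ} (hF : Continuous F) : ContinuousOn (HH F) (Ioo (-1) 1) := by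
  unfold HH
  have hv : ContinuousOn vv (Ioo (-1) 1) := by
    intro x hx
    exact (hasDerivAt_vv (abs_lt.mpr hx)).continuousAt.continuousWithinAt
  apply ContinuousOn.div (hF.comp_continuousOn hv) (by fun_prop)
  intro x hx
  apply (sqrt_pos.mpr _).ne'
  have : |x| < 1 := abs_lt.mpr hx
  have h2 : x ^ 2 < 1 := by
    rw [← sq_abs]
    nlinarith [abs_nonneg x]
  linarith

/-- The cap inequality. -/
lemma cap_ineq {F : ℝ → ℝ} (hFc : Continuous F) (hF : CurveHyp F) {x : ℝ} (hx : 0 ≤ x) :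
    tanh x ≤ ∫ v in (0 : ℝ)..x, F v / cosh v := by
  rcases eq_or_lt_of_le hx with rfl | hx0
  · simp
  have hT1 : ∀ y : ℝ, tanh y < 1 := tanh_lt_one
  have hT2 : ∀ y : ℝ, -1 < tanh y := neg_one_lt_tanh
  have hT0 : 0 < tanh x := by
    rw [tanh_eq_sinh_div_cosh]
    exact div_pos (sinh_pos_iff.mpr hx0) (cosh_pos x)
  have hsub : Icc 0 (tanh x) ⊆ Ioo (-1) 1 := fun y hy =>
    ⟨by linarith [hy.1], by linarith [hy.2, hT1 x]⟩
  have h1 := hatbox_ineq hT0 ((HH_cont hFc).mono hsub)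
    (fun s hs => great_circle hF hs.1 (by linarith [hs.2, hT1 x]))
  have h2 : ∫ v in (0 : ℝ)..x, ((HH F) ∘ tanh) v * (1 / cosh v ^ 2)
      = ∫ y in tanh 0..tanh x, HH F y := by
    apply intervalIntegral.integral_comp_mul_deriv' (fun v _ => hasDerivAt_tanh v)
    · apply Continuous.continuousOn
      apply Continuous.div continuous_const (by fun_prop)
      intro v
      have := cosh_pos v
      positivity
    · apply (HH_cont hFc).mono
      rintro y ⟨z, _, rfl⟩
      exact ⟨hT2 z, hT1 z⟩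
  rw [tanh_zero] at h2
  rw [← h2] at h1
  refine h1.trans (le_of_eq ?_)
  congr 1
  ext v
  simp only [Function.comp]
  unfold HH
  rw [vv_tanh]
  have hc := cosh_pos v
  have e : 1 - tanh v ^ 2 = 1 / cosh v ^ 2 := by
    rw [tanh_eq_sinh_div_cosh]
    have := cosh_sq v
    field_simp
    linarith
  rw [e, sqrt_div zero_le_one, sqrt_one, sqrt_sq hc.le]
  field_simp

end Pool.Agent.Helper8.KB
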