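import Mathlib

set_option autoImplicit false
set_option maxHeartbeats 1000000

namespace Pool.Agent.Helper8.KB

open Real Set MeasureTheory

lemma sin_pow_prod (n : ℕ) :
    (∫ t in (0 : ℝ)..π, sin t ^ n) * (∫ t in (0 : ℝ)..π, sin t ^ (n + 1)) = 2 * π / (n + 1) := by
  induction n with
  | zero =>
    simp
    ring
  | succ n ih =>
    have h := integral_sin_pow (a := 0) (b := π) n
    rw [sin_zero, sin_pi, zero_pow (by omega), zero_mul, zero_mul, sub_zero] at h
    rw [h, zero_div, zero_add]
    have h1 : ((n : ℝ) + 1) ≠ 0 := by positivity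
    have h2 : ((n : ℝ) + 2) ≠ 0 := by positivity
    push_cast
    have : (∫ t in (0 : ℝ)..π, sin t ^ (n + 1)) * (((n : ℝ) + 1) / (n + 2)
        * ∫ t in (0 : ℝ)..π, sin t ^ n)
        = ((n : ℝ) + 1) / (n + 2) * ((∫ t in (0 : ℝ)..π, sin t ^ n)
          * (∫ t in (0 : ℝ)..π, sin t ^ (n + 1))) := by ring
    rw [this, ih]
    field_simp
    ring

/-- The hat-box identity for monomials. -/
lemma hatbox_monomial (T : ℝ) (n : ℕ) :
    ∫ θ in (0 : ℝ)..π, sin θ * ∫ t in (0 : ℝ)..π, (T * sin θ * sin t) ^ n
      = 2 * π * ∫ y in (0 : ℝ)..1, (T * y) ^ n := by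
  have e1 : ∀ θ : ℝ, sin θ * ∫ t in (0 : ℝ)..π, (T * sin θ * sin t) ^ n
      = (T ^ n * ∫ t in (0 : ℝ)..π, sin t ^ n) * sin θ ^ (n + 1) := by
    intro θ
    have : ∀ t : ℝ, (T * sin θ * sin t) ^ n = (T ^ n * sin θ ^ n) * sin t ^ n := by
      intro t
      rw [mul_pow, mul_pow]
    simp_rw [this]
    rw [intervalIntegral.integral_const_mul]
    ring
  simp_rw [e1]
  rw [intervalIntegral.integral_const_mul]
  have e2 : ∀ y : ℝ, (T * y) ^ n = T ^ n * y ^ n := fun y => mul_pow _ _ _
  simp_rw [e2]
  rw [intervalIntegral.integral_const_mul, integral_pow, mul_assoc, sin_pow_prod]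
  simp
  ring

lemma hatbox_poly (T : ℝ) (p : Polynomial ℝ) :
    ∫ θ in (0 : ℝ)..π, sin θ * ∫ t in (0 : ℝ)..π, p.eval (T * sin θ * sin t)
      = 2 * π * ∫ y in (0 : ℝ)..1, p.eval (T * y) := by
  have hcont : ∀ q : Polynomial ℝ, IntervalIntegrable
      (fun θ : ℝ => sin θ * ∫ t in (0 : ℝ)..π, q.eval (T * sin θ * sin t)) volume 0 π := by
    intro q
    apply Continuous.intervalIntegrable
    apply continuous_sin.mul
    apply intervalIntegral.continuous_parametric_intervalIntegral_of_continuous'
    have : Continuous (fun p : ℝ × ℝ => T * sin p.1 * sin p.2) := by fun_prop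
    exact q.continuous.comp this
  have hcont2 : ∀ q : Polynomial ℝ, IntervalIntegrable
      (fun y : ℝ => q.eval (T * y)) volume 0 1 := by
    intro q
    exact (q.continuous.comp (by fun_prop)).intervalIntegrable _ _
  induction p using Polynomial.induction_on' with
  | add p q hp hq =>
    simp only [Polynomial.eval_add]
    have h1 : ∀ θ : ℝ, ∫ t in (0 : ℝ)..π, (p.eval (T * sin θ * sin t) + q.eval (T * sin θ * sin t))
        = (∫ t in (0 : ℝ)..π, p.eval (T * sin θ * sin t))
          + ∫ t in (0 : ℝ)..π, q.eval (T * sin θ * sin t) := by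
      intro θ
      apply intervalIntegral.integral_add
      · exact (p.continuous.comp (by fun_prop)).intervalIntegrable _ _
      · exact (q.continuous.comp (by fun_prop)).intervalIntegrable _ _
    simp_rw [h1, mul_add]
    rw [intervalIntegral.integral_add (hcont p) (hcont q), hp, hq,
      intervalIntegral.integral_add (hcont2 p) (hcont2 q)]
    ring
  | monomial n a =>
    simp only [Polynomial.eval_monomial]
    simp_rw [intervalIntegral.integral_const_mul]
    have h1 : ∀ θ : ℝ, sin θ * (a * ∫ t in (0 : ℝ)..π, (T * sin θ * sin t) ^ n)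
        = a * (sin θ * ∫ t in (0 : ℝ)..π, (T * sin θ * sin t) ^ n) := by
      intro θ; ring
    simp_rw [h1]
    rw [intervalIntegral.integral_const_mul, hatbox_monomial]
    ring

/-- The hat-box inequality: if all great circle integrals are at least `π`, then the integral of
`H` over `[0, T]` is at least `T`. -/
lemma hatbox_ineq {T : ℝ} (hT : 0 < T) {H : ℝ → ℝ} (hH : ContinuousOn H (Icc 0 T))
    (h : ∀ s ∈ Icc 0 T, π ≤ ∫ t in (0 : ℝ)..π, H (s * sin t)) :
    T ≤ ∫ y in (0 : ℝ)..T, H y := by
  have hscale : ∫ y in (0 : ℝ)..1, H (T * y) = T⁻¹ * ∫ y in (0 : ℝ)..T, H y := by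
    rw [intervalIntegral.integral_comp_mul_left _ hT.ne', mul_zero, mul_one, smul_eq_mul]
  have key : ∀ ε : ℝ, 0 < ε → 1 ≤ (∫ y in (0 : ℝ)..1, H (T * y)) + 2 * ε := by
    intro ε hε
    obtain ⟨p, hp⟩ := exists_polynomial_near_of_continuousOn 0 T H hH ε hε
    have hsin : ∀ θ ∈ Icc (0 : ℝ) π, 0 ≤ sin θ ∧ sin θ ≤ 1 := fun θ hθ =>
      ⟨sin_nonneg_of_mem_Icc hθ, sin_le_one θ⟩
    have hmem : ∀ s ∈ Icc (0 : ℝ) T, ∀ t ∈ Icc (0 : ℝ) π, s * sin t ∈ Icc (0 : ℝ) T := by
      intro s hs t ht
      obtain ⟨h1, h2⟩ := hsin t ht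
      refine ⟨mul_nonneg hs.1 h1, ?_⟩
      calc s * sin t ≤ s * 1 := by
            apply mul_le_mul_of_nonneg_left h2 hs.1
        _ ≤ T := by rw [mul_one]; exact hs.2
    have hin : ∀ s ∈ Icc (0 : ℝ) T, π ≤ (∫ t in (0 : ℝ)..π, p.eval (s * sin t)) + π * ε := by
      intro s hs
      have hci : ContinuousOn (fun t => H (s * sin t)) (uIcc 0 π) := by
        rw [uIcc_of_le pi_pos.le]
        exact hH.comp (by fun_prop) (fun t ht => hmem s hs t ht)
      have h1 : ∫ t in (0 : ℝ)..π, H (s * sin t)
          ≤ ∫ t in (0 : ℝ)..π, (p.eval (s * sin t) + ε) := by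
        apply intervalIntegral.integral_mono_on pi_pos.le hci.intervalIntegrable
        · apply Continuous.intervalIntegrable
          exact (p.continuous.comp (by fun_prop)).add continuous_const
        · intro t ht
          have := (abs_lt.mp (hp _ (hmem s hs t ht))).1
          linarith
      have h2 : IntervalIntegrable (fun t => p.eval (s * sin t)) volume 0 π :=
        (p.continuous.comp (by fun_prop)).intervalIntegrable _ _
      rw [intervalIntegral.integral_add h2
        intervalIntegrable_const, intervalIntegral.integral_const, sub_zero, smul_eq_mul] at h1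
      exact (h s hs).trans h1
    have hcont : Continuous (fun θ : ℝ => ∫ t in (0 : ℝ)..π, p.eval (T * sin θ * sin t)) := by
      apply intervalIntegral.continuous_parametric_intervalIntegral_of_continuous'
      have : Continuous (fun p : ℝ × ℝ => T * sin p.1 * sin p.2) := by fun_prop
      exact p.continuous.comp this
    have h2 : ∫ θ in (0 : ℝ)..π, sin θ * π ≤ ∫ θ in (0 : ℝ)..π,
        (sin θ * (∫ t in (0 : ℝ)..π, p.eval (T * sin θ * sin t)) + sin θ * (π * ε)) := by
      apply intervalIntegral.integral_mono_on pi_pos.le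
      · exact (continuous_sin.mul continuous_const).intervalIntegrable _ _
      · exact ((continuous_sin.mul hcont).add
          (continuous_sin.mul continuous_const)).intervalIntegrable _ _
      · intro θ hθ
        obtain ⟨h3, h4⟩ := hsin θ hθ
        have hs : T * sin θ ∈ Icc (0 : ℝ) T := by
          refine ⟨by positivity, ?_⟩
          calc T * sin θ ≤ T * 1 := by gcongr
            _ = T := mul_one T
        have := hin _ hs
        rw [← mul_add]
        gcongr
    have hi1 : IntervalIntegrable (fun θ : ℝ => sin θ *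
        (∫ t in (0 : ℝ)..π, p.eval (T * sin θ * sin t))) volume 0 π :=
      (continuous_sin.mul hcont).intervalIntegrable _ _
    have hi2 : IntervalIntegrable (fun θ : ℝ => sin θ * (π * ε)) volume 0 π :=
      (continuous_sin.mul continuous_const).intervalIntegrable _ _
    rw [intervalIntegral.integral_add hi1 hi2, hatbox_poly,
      intervalIntegral.integral_mul_const, intervalIntegral.integral_mul_const, integral_sin,
      cos_zero, cos_pi] at h2
    have hmemT : ∀ y ∈ Icc (0 : ℝ) 1, T * y ∈ Icc (0 : ℝ) T := by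
      intro y hy
      refine ⟨mul_nonneg hT.le hy.1, ?_⟩
      calc T * y ≤ T * 1 := by
            apply mul_le_mul_of_nonneg_left hy.2 hT.le
        _ = T := mul_one T
    have hci : ContinuousOn (fun y => H (T * y)) (uIcc 0 1) := by
      rw [uIcc_of_le zero_le_one]
      exact hH.comp (by fun_prop) hmemT
    have h5 : ∫ y in (0 : ℝ)..1, p.eval (T * y) ≤ ∫ y in (0 : ℝ)..1, (H (T * y) + ε) := by
      apply intervalIntegral.integral_mono_on zero_le_one
      · exact (p.continuous.comp (by fun_prop)).intervalIntegrable _ _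
      · exact hci.intervalIntegrable.add intervalIntegrable_const
      · intro y hy
        have := (abs_lt.mp (hp _ (hmemT y hy))).2
        linarith
    have hi3 : IntervalIntegrable (fun y => H (T * y)) volume 0 1 := hci.intervalIntegrable
    rw [intervalIntegral.integral_add hi3 intervalIntegrable_const,
      intervalIntegral.integral_const, sub_zero, smul_eq_mul, one_mul] at h5
    have hπ := pi_pos
    nlinarith
  have h6 : 1 ≤ ∫ y in (0 : ℝ)..1, H (T * y) := by
    apply le_of_forall_pos_le_add
    intro ε hε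
    have := key (ε / 2) (by positivity)
    linarith
  rw [hscale] at h6
  rw [inv_mul_eq_div, le_div_iff₀ hT] at h6
  linarith

end Pool.Agent.Helper8.KB
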