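import Pool.Agent.Helper8.KB.GreatCircle

set_option autoImplicit false
set_option maxHeartbeats 1000000

namespace Pool.Agent.Helper8.KB

open Real Set MeasureTheory

lemma ii_add {f g : ℝ → ℝ} (hf : Continuous f) (hg : Continuous g) (a b : ℝ) :
    ∫ x in a..b, (f x + g x) = (∫ x in a..b, f x) + ∫ x in a..b, g x :=
  intervalIntegral.integral_add (hf.intervalIntegrable _ _) (hg.intervalIntegrable _ _)

lemma ii_sub {f g : ℝ → ℝ} (hf : Continuous f) (hg : Continuous g) (a b : ℝ) :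
    ∫ x in a..b, (f x - g x) = (∫ x in a..b, f x) - ∫ x in a..b, g x :=
  intervalIntegral.integral_sub (hf.intervalIntegrable _ _) (hg.intervalIntegrable _ _)

lemma split_four {G : ℝ → ℝ} (hG : Continuous G) (heven : ∀ v, G (-v) = G v) {ℓ : ℝ}
    (hper : ∀ v, G (v + ℓ) = G v) :
    ∫ v in (0 : ℝ)..ℓ, G v = 2 * (∫ v in (0 : ℝ)..(ℓ / 4), G v)
      + 2 * ∫ v in (0 : ℝ)..(ℓ / 4), G (v + ℓ / 2) := by
  have hi : ∀ a b : ℝ, IntervalIntegrable G volume a b := fun a b => hG.intervalIntegrable a b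
  have s1 : ∫ v in (0 : ℝ)..ℓ, G v = (∫ v in (0 : ℝ)..(ℓ / 4), G v) + (∫ v in (ℓ / 4)..(ℓ / 2), G v)
      + (∫ v in (ℓ / 2)..(3 * ℓ / 4), G v) + ∫ v in (3 * ℓ / 4)..ℓ, G v := by
    rw [intervalIntegral.integral_add_adjacent_intervals (hi _ _) (hi _ _),
      intervalIntegral.integral_add_adjacent_intervals (hi _ _) (hi _ _),
      intervalIntegral.integral_add_adjacent_intervals (hi _ _) (hi _ _)]
  have s2 : ∫ v in (ℓ / 4)..(ℓ / 2), G v = ∫ v in (0 : ℝ)..(ℓ / 4), G (v + ℓ / 2) := by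
    have h := intervalIntegral.integral_comp_sub_left (a := 0) (b := ℓ / 4) G (ℓ / 2)
    rw [sub_zero, show ℓ / 2 - ℓ / 4 = ℓ / 4 by ring] at h
    rw [← h]
    congr 1
    ext v
    rw [← heven, ← hper (-(ℓ / 2 - v))]
    congr 1
    ring
  have s3 : ∫ v in (ℓ / 2)..(3 * ℓ / 4), G v = ∫ v in (0 : ℝ)..(ℓ / 4), G (v + ℓ / 2) := by
    rw [intervalIntegral.integral_comp_add_right (f := G) (d := ℓ / 2), zero_add,
      show ℓ / 4 + ℓ / 2 = 3 * ℓ / 4 by ring]
  have s4 : ∫ v in (3 * ℓ / 4)..ℓ, G v = ∫ v in (0 : ℝ)..(ℓ / 4), G v := by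
    have h := intervalIntegral.integral_comp_sub_left (a := 0) (b := ℓ / 4) G ℓ
    rw [sub_zero, show ℓ - ℓ / 4 = 3 * ℓ / 4 by ring] at h
    rw [← h]
    congr 1
    ext v
    rw [← heven (ℓ - v), ← hper (-(ℓ - v))]
    congr 1
    ring
  rw [s1, s2, s3, s4]
  ring

lemma int_sech (V : ℝ) : ∫ v in (0 : ℝ)..V, 1 / cosh v = arctan (sinh V) := by
  have hd : ∀ v ∈ uIcc 0 V, HasDerivAt (fun v => arctan (sinh v)) (1 / cosh v) v := by
    intro v _
    have h := (hasDerivAt_sinh v).arctan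
    have e : 1 / (1 + sinh v ^ 2) * cosh v = 1 / cosh v := by
      have h1 := cosh_sq v
      have h2 := cosh_pos v
      rw [show 1 + sinh v ^ 2 = cosh v ^ 2 by linarith]
      field_simp
    rw [← e]
    exact h
  have hc : Continuous (fun v : ℝ => 1 / cosh v) :=
    continuous_const.div continuous_cosh (fun v => (cosh_pos v).ne')
  rw [intervalIntegral.integral_eq_sub_of_hasDerivAt hd (hc.intervalIntegrable _ _)]
  simp

lemma int_sech_sq (V : ℝ) : ∫ v in (0 : ℝ)..V, (1 / cosh v) ^ 2 = tanh V := by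
  have hd : ∀ v ∈ uIcc 0 V, HasDerivAt tanh ((1 / cosh v) ^ 2) v := by
    intro v _
    have e : (1 / cosh v) ^ 2 = 1 / cosh v ^ 2 := by rw [div_pow, one_pow]
    rw [e]
    exact hasDerivAt_tanh v
  have hc : Continuous (fun v : ℝ => (1 / cosh v) ^ 2) :=
    (continuous_const.div continuous_cosh (fun v => (cosh_pos v).ne')).pow 2
  rw [intervalIntegral.integral_eq_sub_of_hasDerivAt hd (hc.intervalIntegrable _ _)]
  simp

/-- the kernel inequality -/
lemma kernel_ineq {a : ℝ → ℝ} (ha : Continuous a) {V : ℝ} (hV : 0 ≤ V)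
    (hB : ∀ x : ℝ, 0 ≤ x → tanh x ≤ ∫ v in (0 : ℝ)..x, a v / cosh v) :
    tanh V - 1 / cosh V * arctan (sinh V) + 1 / cosh V * ∫ v in (0 : ℝ)..V, a v
      ≤ ∫ v in (0 : ℝ)..V, a v / cosh v := by
  set β := 1 / cosh V with hβ
  have hβ0 : 0 < β := by rw [hβ]; have := cosh_pos V; positivity
  have hcs : Continuous (fun v : ℝ => a v / cosh v) :=
    ha.div continuous_cosh (fun v => (cosh_pos v).ne')
  set G : ℝ → ℝ := fun x => ∫ v in (0 : ℝ)..x, a v / cosh v with hG
  have hGd : ∀ x, HasDerivAt G (a x / cosh x) x := fun x =>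
    intervalIntegral.integral_hasDerivAt_right (hcs.intervalIntegrable _ _)
      (hcs.stronglyMeasurableAtFilter _ _) hcs.continuousAt
  have hud : ∀ x : ℝ, HasDerivAt (fun v => 1 - β * cosh v) (-(β * sinh x)) x := by
    intro x
    have := ((hasDerivAt_cosh x).const_mul β).const_sub 1
    exact this
  have hGc : Continuous G := continuous_iff_continuousAt.mpr (fun x => (hGd x).continuousAt)
  have hparts := intervalIntegral.integral_mul_deriv_eq_deriv_mul (a := 0) (b := V)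
    (u := fun v => 1 - β * cosh v) (v := G) (u' := fun x => -(β * sinh x))
    (v' := fun x => a x / cosh x) (fun x _ => hud x) (fun x _ => hGd x)
    ((by fun_prop : Continuous (fun x : ℝ => -(β * sinh x))).intervalIntegrable _ _)
    (hcs.intervalIntegrable _ _)
  have hG0 : G 0 = 0 := by simp [hG]
  have hβV : 1 - β * cosh V = 0 := by
    rw [hβ, one_div, inv_mul_cancel₀ (cosh_pos V).ne', sub_self]
  rw [hβV, hG0, zero_mul, mul_zero, sub_zero, zero_sub] at hparts
  have e1 : ∫ x in (0 : ℝ)..V, (1 - β * cosh x) * (a x / cosh x)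
      = (∫ v in (0 : ℝ)..V, a v / cosh v) - β * ∫ v in (0 : ℝ)..V, a v := by
    rw [← intervalIntegral.integral_const_mul, ← ii_sub (f := fun v => a v / cosh v)
      (g := fun v => β * a v) hcs (by fun_prop)]
    congr 1
    ext x
    have := cosh_pos x
    field_simp
  have e2 : -∫ x in (0 : ℝ)..V, -(β * sinh x) * G x = β * ∫ x in (0 : ℝ)..V, sinh x * G x := by
    rw [← intervalIntegral.integral_const_mul, ← intervalIntegral.integral_neg]
    congr 1
    ext x
    ring
  rw [e1, e2] at hparts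
  have hmono : ∫ x in (0 : ℝ)..V, (cosh x - 1 / cosh x) ≤ ∫ x in (0 : ℝ)..V, sinh x * G x := by
    apply intervalIntegral.integral_mono_on hV
    · apply Continuous.intervalIntegrable
      exact continuous_cosh.sub (continuous_const.div continuous_cosh (fun v => (cosh_pos v).ne'))
    · exact (continuous_sinh.mul hGc).intervalIntegrable _ _
    · intro x hx
      have h1 := hB x hx.1
      have h2 : 0 ≤ sinh x := sinh_nonneg_iff.mpr hx.1
      have h3 : cosh x - 1 / cosh x = sinh x * tanh x := by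
        rw [tanh_eq_sinh_div_cosh]
        have h4 := cosh_pos x
        have h5 := cosh_sq x
        field_simp
        linarith
      rw [h3]
      exact mul_le_mul_of_nonneg_left h1 h2
  have e3 : ∫ x in (0 : ℝ)..V, (cosh x - 1 / cosh x) = sinh V - arctan (sinh V) := by
    rw [ii_sub (f := cosh) (g := fun v => 1 / cosh v) continuous_cosh
      (continuous_const.div continuous_cosh (fun v => (cosh_pos v).ne')), int_sech]
    congr 1
    rw [intervalIntegral.integral_eq_sub_of_hasDerivAt (fun x _ => hasDerivAt_sinh x)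
      (continuous_cosh.intervalIntegrable _ _)]
    simp
  rw [e3] at hmono
  have h6 : β * (sinh V - arctan (sinh V)) ≤ β * ∫ x in (0 : ℝ)..V, sinh x * G x :=
    mul_le_mul_of_nonneg_left hmono hβ0.le
  have h7 : β * sinh V = tanh V := by
    rw [hβ, tanh_eq_sinh_div_cosh]; ring
  have h8 : β * (sinh V - arctan (sinh V)) = tanh V - β * arctan (sinh V) := by
    rw [mul_sub, h7]
  linarith

/-- quadratic lower bound -/
lemma quad_ineq {a : ℝ → ℝ} (ha : Continuous a) {V : ℝ} (hV : 0 ≤ V) (lam : ℝ) :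
    2 * lam * (∫ v in (0 : ℝ)..V, a v / cosh v) - lam ^ 2 * tanh V ≤ ∫ v in (0 : ℝ)..V, a v ^ 2 := by
  have hc : Continuous (fun v : ℝ => 1 / cosh v) :=
    continuous_const.div continuous_cosh (fun v => (cosh_pos v).ne')
  have hcs : Continuous (fun v : ℝ => a v / cosh v) :=
    ha.div continuous_cosh (fun v => (cosh_pos v).ne')
  have h0 : 0 ≤ ∫ v in (0 : ℝ)..V, (a v - lam * (1 / cosh v)) ^ 2 :=
    intervalIntegral.integral_nonneg hV (fun v _ => sq_nonneg _)
  have e : ∫ v in (0 : ℝ)..V, (a v - lam * (1 / cosh v)) ^ 2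
      = (∫ v in (0 : ℝ)..V, a v ^ 2) - 2 * lam * (∫ v in (0 : ℝ)..V, a v / cosh v)
        + lam ^ 2 * tanh V := by
    rw [← int_sech_sq, ← intervalIntegral.integral_const_mul, ← intervalIntegral.integral_const_mul,
      ← ii_sub (f := fun v => a v ^ 2) (g := fun v => 2 * lam * (a v / cosh v)) (by fun_prop)
        (by fun_prop),
      ← ii_add (f := fun v => a v ^ 2 - 2 * lam * (a v / cosh v))
        (g := fun v => lam ^ 2 * (1 / cosh v) ^ 2) (by fun_prop) (by fun_prop)]
    congr 1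
    ext v
    ring
  linarith

lemma trig_bound {y : ℝ} (h0 : 0 ≤ y) (h1 : y ≤ 1) :
    1 ≤ (1 + y) * cos y - (1 - y) * sin y := by
  have h2 : 1 - y ^ 2 / 2 ≤ cos y := one_sub_sq_div_two_le_cos
  have h3 : sin y ≤ y := sin_le h0
  have h4 : (1 + y) * (1 - y ^ 2 / 2) ≤ (1 + y) * cos y :=
    mul_le_mul_of_nonneg_left h2 (by linarith)
  have h5 : (1 - y) * sin y ≤ (1 - y) * y := mul_le_mul_of_nonneg_left h3 (by linarith)
  have h6 : 0 ≤ y ^ 2 * (1 - y) := mul_nonneg (sq_nonneg y) (by linarith)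
  nlinarith

/-- the trigonometric estimate -/
lemma phi_bound {φ : ℝ} (h0 : 0 ≤ φ) (h1 : φ ≤ π / 4) :
    √2 ≤ 2 * sin φ + 2 * (π / 4 - φ) * cos φ := by
  obtain ⟨y, hφ⟩ : ∃ y, φ = π / 4 - y := ⟨π / 4 - φ, by ring⟩
  have hy0 : 0 ≤ y := by linarith
  have hy1 : y ≤ 1 := by
    have := pi_le_four
    linarith
  have hb := trig_bound hy0 hy1
  rw [hφ, sin_sub, cos_sub, sin_pi_div_four, cos_pi_div_four,
    show π / 4 - (π / 4 - y) = y by ring]
  have h2 : 0 ≤ √2 := sqrt_nonneg 2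
  have e : 2 * (√2 / 2 * cos y - √2 / 2 * sin y) + 2 * y * (√2 / 2 * cos y + √2 / 2 * sin y)
      = √2 * ((1 + y) * cos y - (1 - y) * sin y) := by ring
  rw [e]
  nlinarith

/-- equality case on one quarter -/
lemma eq_sech {a : ℝ → ℝ} (ha : Continuous a) {V : ℝ} (hV : 0 < V)
    (h1 : tanh V ≤ ∫ v in (0 : ℝ)..V, a v / cosh v) (h2 : ∫ v in (0 : ℝ)..V, a v ^ 2 ≤ tanh V) :
    ∀ v ∈ Icc 0 V, a v = 1 / cosh v := by
  have hc : Continuous (fun v : ℝ => 1 / cosh v) :=
    continuous_const.div continuous_cosh (fun v => (cosh_pos v).ne')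
  have hcs : Continuous (fun v : ℝ => a v / cosh v) :=
    ha.div continuous_cosh (fun v => (cosh_pos v).ne')
  have e : ∫ v in (0 : ℝ)..V, (a v - 1 / cosh v) ^ 2
      = (∫ v in (0 : ℝ)..V, a v ^ 2) - 2 * (∫ v in (0 : ℝ)..V, a v / cosh v)
        + tanh V := by
    rw [← int_sech_sq, ← intervalIntegral.integral_const_mul,
      ← ii_sub (f := fun v => a v ^ 2) (g := fun v => 2 * (a v / cosh v)) (by fun_prop)
        (by fun_prop),
      ← ii_add (f := fun v => a v ^ 2 - 2 * (a v / cosh v))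
        (g := fun v => (1 / cosh v) ^ 2) (by fun_prop) (by fun_prop)]
    congr 1
    ext v
    ring
  intro v hv
  by_contra hne
  have hpos : 0 < ∫ v in (0 : ℝ)..V, (a v - 1 / cosh v) ^ 2 := by
    apply intervalIntegral.integral_pos hV
    · exact ((ha.sub hc).pow 2).continuousOn
    · intro x _
      exact sq_nonneg _
    · refine ⟨v, hv, ?_⟩
      have : a v - 1 / cosh v ≠ 0 := sub_ne_zero.mpr hne
      positivity
  linarith

theorem one_dim {ℓ : ℝ} (hℓ : 0 < ℓ) {F : ℝ → ℝ} (hFd : Differentiable ℝ F)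
    (heven : ∀ v, F (-v) = F v) (hper : ∀ v, F (v + ℓ) = F v)
    (hA : π ≤ ∫ v in (0 : ℝ)..ℓ, F v)
    (hB : ∀ x : ℝ, 0 ≤ x → tanh x ≤ ∫ v in (0 : ℝ)..x, F v / cosh v)
    (hB' : ∀ x : ℝ, 0 ≤ x → tanh x ≤ ∫ v in (0 : ℝ)..x, F (v + ℓ / 2) / cosh v) :
    2 * √2 < ∫ v in (0 : ℝ)..ℓ, F v ^ 2 := by
  have hFc : Continuous F := hFd.continuous
  have hbc : Continuous (fun v => F (v + ℓ / 2)) := hFc.comp (by fun_prop)
  set V := ℓ / 4 with hVdef
  have hV : 0 < V := by rw [hVdef]; linarith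
  have hs2 : ∫ v in (0 : ℝ)..ℓ, F v ^ 2 = 2 * (∫ v in (0 : ℝ)..V, F v ^ 2)
      + 2 * ∫ v in (0 : ℝ)..V, F (v + ℓ / 2) ^ 2 :=
    split_four (G := fun v => F v ^ 2) (by fun_prop) (fun v => by rw [heven])
      (fun v => by rw [hper])
  have hs1 : ∫ v in (0 : ℝ)..ℓ, F v = 2 * (∫ v in (0 : ℝ)..V, F v)
      + 2 * ∫ v in (0 : ℝ)..V, F (v + ℓ / 2) := split_four hFc heven hper
  have hsqrt : √2 * √2 = 2 := mul_self_sqrt (by norm_num)
  have hsqrt0 : 0 < √2 := sqrt_pos.mpr (by norm_num)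
  have hT0 : 0 < tanh V := by
    rw [tanh_eq_sinh_div_cosh]
    exact div_pos (sinh_pos_iff.mpr hV) (cosh_pos V)
  have qa := quad_ineq hFc hV.le 1
  have qb := quad_ineq hbc hV.le 1
  have hBV := hB V hV.le
  have hBV' := hB' V hV.le
  have ha2 : tanh V ≤ ∫ v in (0 : ℝ)..V, F v ^ 2 := by linarith
  have hb2 : tanh V ≤ ∫ v in (0 : ℝ)..V, F (v + ℓ / 2) ^ 2 := by linarith
  rcases lt_trichotomy (tanh V) (√2 / 2) with hlt | heq | hgt
  · -- second case
    have hβ0 : 0 < 1 / cosh V := by have := cosh_pos V; positivity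
    have ka := kernel_ineq hFc hV.le hB
    have kb := kernel_ineq hbc hV.le hB'
    -- the angle
    set φ := arctan (sinh V) with hφ
    have hch : √(1 + sinh V ^ 2) = cosh V := by
      rw [show 1 + sinh V ^ 2 = cosh V ^ 2 by have := cosh_sq V; linarith, sqrt_sq (cosh_pos V).le]
    have hsin : sin φ = tanh V := by
      rw [hφ, sin_arctan, hch, tanh_eq_sinh_div_cosh]
    have hcos : cos φ = 1 / cosh V := by
      rw [hφ, cos_arctan, hch]
    have hφ0 : 0 ≤ φ := arctan_nonneg.mpr (sinh_nonneg_iff.mpr hV.le)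
    have hφ2 : φ < π / 2 := arctan_lt_pi_div_two _
    have hφ1 : φ ≤ π / 4 := by
      by_contra hc
      push Not at hc
      have := strictMonoOn_sin (a := π / 4) (b := φ) ⟨by linarith [pi_pos], by linarith [pi_pos]⟩
        ⟨by linarith [pi_pos], hφ2.le⟩ hc
      rw [sin_pi_div_four, hsin] at this
      linarith
    have hpb := phi_bound hφ0 hφ1
    rw [hsin, hcos] at hpb
    have hsum : √2 ≤ (∫ v in (0 : ℝ)..V, F v / cosh v)
        + ∫ v in (0 : ℝ)..V, F (v + ℓ / 2) / cosh v := by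
      have h1 : π / 2 ≤ (∫ v in (0 : ℝ)..V, F v) + ∫ v in (0 : ℝ)..V, F (v + ℓ / 2) := by linarith
      have h2 : 1 / cosh V * (π / 2) ≤ 1 / cosh V * ((∫ v in (0 : ℝ)..V, F v)
          + ∫ v in (0 : ℝ)..V, F (v + ℓ / 2)) := mul_le_mul_of_nonneg_left h1 hβ0.le
      rw [mul_add] at h2
      nlinarith
    have hab : Continuous (fun v => F v + F (v + ℓ / 2)) := hFc.add hbc
    have qab := quad_ineq hab hV.le (√2 / tanh V)
    have e1 : ∫ v in (0 : ℝ)..V, (F v + F (v + ℓ / 2)) / cosh v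
        = (∫ v in (0 : ℝ)..V, F v / cosh v) + ∫ v in (0 : ℝ)..V, F (v + ℓ / 2) / cosh v := by
      rw [← ii_add (f := fun v => F v / cosh v) (g := fun v => F (v + ℓ / 2) / cosh v)
        (hFc.div continuous_cosh (fun v => (cosh_pos v).ne'))
        (hbc.div continuous_cosh (fun v => (cosh_pos v).ne'))]
      congr 1
      ext v
      ring
    rw [e1] at qab
    have e2 : ∫ v in (0 : ℝ)..V, (F v + F (v + ℓ / 2)) ^ 2
        ≤ 2 * (∫ v in (0 : ℝ)..V, F v ^ 2) + 2 * ∫ v in (0 : ℝ)..V, F (v + ℓ / 2) ^ 2 := by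
      rw [← intervalIntegral.integral_const_mul, ← intervalIntegral.integral_const_mul,
        ← ii_add (f := fun v => 2 * F v ^ 2) (g := fun v => 2 * F (v + ℓ / 2) ^ 2)
          (by fun_prop) (by fun_prop)]
      apply intervalIntegral.integral_mono_on hV.le
      · exact (hab.pow 2).intervalIntegrable _ _
      · exact ((continuous_const.mul (hFc.pow 2)).add
          (continuous_const.mul (hbc.pow 2))).intervalIntegrable _ _
      · intro v _
        nlinarith [sq_nonneg (F v - F (v + ℓ / 2))]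
    have h3 : 2 / tanh V ≤ 2 * (√2 / tanh V) * ((∫ v in (0 : ℝ)..V, F v / cosh v)
        + ∫ v in (0 : ℝ)..V, F (v + ℓ / 2) / cosh v) - (√2 / tanh V) ^ 2 * tanh V := by
      have h4 : (√2 / tanh V) ^ 2 * tanh V = 2 / tanh V := by
        rw [div_pow, sq, hsqrt]
        field_simp
      have h5 : 2 * (√2 / tanh V) * √2 = 4 / tanh V := by
        have : 2 * (√2 / tanh V) * √2 = 2 * (√2 * √2) / tanh V := by ring
        rw [this, hsqrt]
        norm_num
      have h6 : 2 * (√2 / tanh V) * √2 ≤ 2 * (√2 / tanh V) * ((∫ v in (0 : ℝ)..V, F v / cosh v)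
        + ∫ v in (0 : ℝ)..V, F (v + ℓ / 2) / cosh v) :=
        mul_le_mul_of_nonneg_left hsum (by positivity)
      rw [h4]
      rw [h5] at h6
      have h7 : 4 / tanh V = 2 / tanh V + 2 / tanh V := by ring
      linarith
    have h8 : 2 * √2 < 2 / tanh V := by
      rw [lt_div_iff₀ hT0]
      nlinarith
    rw [hs2]
    linarith
  · -- equality case
    by_contra hle
    push Not at hle
    rw [hs2] at hle
    have hA2 : ∫ v in (0 : ℝ)..V, F v ^ 2 ≤ tanh V := by linarith
    have hB2 : ∫ v in (0 : ℝ)..V, F (v + ℓ / 2) ^ 2 ≤ tanh V := by linarith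
    have ea := eq_sech hFc hV hBV hA2
    have eb := eq_sech hbc hV hBV' hB2
    have hD := (hFd V).hasDerivAt
    set D := deriv F V with hDdef
    have dsech : ∀ x : ℝ, HasDerivAt (fun v : ℝ => 1 / cosh v) (-sinh x / cosh x ^ 2) x := by
      intro x
      have h := (hasDerivAt_cosh x).inv (cosh_pos x).ne'
      have e : (fun v : ℝ => 1 / cosh v) = cosh⁻¹ := by
        ext v
        rw [Pi.inv_apply, one_div]
      rw [e]
      exact h
    have hl : HasDerivWithinAt F (-sinh V / cosh V ^ 2) (Icc 0 V) V :=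
      (dsech V).hasDerivWithinAt.congr (fun v hv => ea v hv) (ea V (right_mem_Icc.mpr hV.le))
    have hl2 : D = -sinh V / cosh V ^ 2 :=
      (uniqueDiffOn_Icc hV V (right_mem_Icc.mpr hV.le)).eq_deriv _ hD.hasDerivWithinAt hl
    have er : ∀ w ∈ Icc V (2 * V), F w = 1 / cosh (2 * V - w) := by
      intro w hw
      have h1 := eb (2 * V - w) ⟨by linarith [hw.2], by linarith [hw.1]⟩
      rw [← h1, ← heven w, ← hper (-w)]
      congr 1
      rw [hVdef]
      ring
    have dr : HasDerivAt (fun w : ℝ => 1 / cosh (2 * V - w)) (sinh V / cosh V ^ 2) V := by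
      have h1 : HasDerivAt (fun w : ℝ => 2 * V - w) (-1) V := by
        simpa using (hasDerivAt_id V).const_sub (2 * V)
      have h2 := (dsech (2 * V - V)).comp V h1
      rw [show 2 * V - V = V by ring] at h2
      have e : -sinh V / cosh V ^ 2 * -1 = sinh V / cosh V ^ 2 := by ring
      rw [← e]
      exact h2
    have h2V : V < 2 * V := by linarith
    have hr : HasDerivWithinAt F (sinh V / cosh V ^ 2) (Icc V (2 * V)) V :=
      dr.hasDerivWithinAt.congr (fun v hv => er v hv) (er V (left_mem_Icc.mpr h2V.le))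
    have hr2 : D = sinh V / cosh V ^ 2 :=
      (uniqueDiffOn_Icc h2V V (left_mem_Icc.mpr h2V.le)).eq_deriv _ hD.hasDerivWithinAt hr
    have hsp : 0 < sinh V := sinh_pos_iff.mpr hV
    have hcp := cosh_pos V
    have h3 : 0 < sinh V / cosh V ^ 2 := by positivity
    have h4 : -sinh V / cosh V ^ 2 = -(sinh V / cosh V ^ 2) := by ring
    rw [h4] at hl2
    linarith
  · rw [hs2]
    linarith

end Pool.Agent.Helper8.KB
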